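import Pool.Agent.Helper499.WBA

open Filter Topology

namespace Pool.Agent.Results.MP_605a0d_an.NoSchauder

/-- `h` is a weak star basis of the dual of `E`: every functional is the weak star limit of the
partial sums `∑_{n < N} a n • h n` for exactly one sequence of scalars `a`. -/
def IsWeakStarBasis (𝕜 E : Type) [RCLike 𝕜] [NormedAddCommGroup E] [NormedSpace 𝕜 E]
    (h : ℕ → WeakDual 𝕜 E) : Prop :=
  ∀ f : WeakDual 𝕜 E, ∃! a : ℕ → 𝕜,
    Tendsto (fun N => ∑ n ∈ Finset.range N, a n • h n) atTop (𝓝 f)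

/-- `h` is a weak star Schauder basis of the dual of `E`: it is a weak star basis and, for each `m`,
the coefficient functional sending `f` to the `m`-th coefficient of its expansion is continuous for
the weak star topology. -/
def IsWeakStarSchauderBasis (𝕜 E : Type) [RCLike 𝕜] [NormedAddCommGroup E] [NormedSpace 𝕜 E]
    (h : ℕ → WeakDual 𝕜 E) : Prop :=
  IsWeakStarBasis 𝕜 E h ∧ ∀ m : ℕ, ∃ c : WeakDual 𝕜 E → 𝕜, Continuous c ∧
    ∀ (f : WeakDual 𝕜 E) (a : ℕ → 𝕜),
      Tendsto (fun N => ∑ n ∈ Finset.range N, a n • h n) atTop (𝓝 f) → c f = a m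

section
variable {𝕜 E : Type} [RCLike 𝕜] [NormedAddCommGroup E] [NormedSpace 𝕜 E]

/-- Sanity check: weak star convergence of the partial sums is pointwise convergence. -/
theorem tendsto_iff (h : ℕ → WeakDual 𝕜 E) (a : ℕ → 𝕜) (f : WeakDual 𝕜 E) :
    Tendsto (fun N => ∑ n ∈ Finset.range N, a n • h n) atTop (𝓝 f) ↔
      ∀ x : E, Tendsto (fun N => ∑ n ∈ Finset.range N, a n * h n x) atTop (𝓝 (f x)) := by
  have h1 : ∀ N (x : E), (∑ n ∈ Finset.range N, a n • h n : WeakDual 𝕜 E) x =
      ∑ n ∈ Finset.range N, a n * h n x := by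
    intro N x
    induction N with
    | zero =>
      rw [Finset.range_zero, Finset.sum_empty, Finset.sum_empty]
      rfl
    | succ N ih =>
      rw [Finset.sum_range_succ, Finset.sum_range_succ, ← ih]
      rfl
  rw [tendsto_iff_forall_eval_tendsto_topDualPairing]
  simp only [topDualPairing_apply]
  simp only [← h1]
  rfl

/-- The coefficient functionals of a weak star Schauder basis are evaluations at points of `E`. -/
theorem exists_points (h : ℕ → WeakDual 𝕜 E) (hh : IsWeakStarSchauderBasis 𝕜 E h) :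
    ∃ x : ℕ → E, ∀ (f : WeakDual 𝕜 E) (a : ℕ → 𝕜),
      Tendsto (fun N => ∑ n ∈ Finset.range N, a n • h n) atTop (𝓝 f) → ∀ m, a m = f (x m) := by
  obtain ⟨hb, hc⟩ := hh
  choose c hcc hca using hc
  have hlin : ∀ m, ∃ x : E, ∀ f : WeakDual 𝕜 E, c m f = f x := by
    intro m
    let C : StrongDual 𝕜 (WeakBilin (topDualPairing 𝕜 E)) :=
      { toFun := c m
        map_add' := by
          intro f g
          obtain ⟨a, ha, _⟩ := hb f
          obtain ⟨b, hb', _⟩ := hb g
          have h1 : Tendsto (fun N => ∑ n ∈ Finset.range N, (a n + b n) • h n) atTop (𝓝 (f + g)) := by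
            refine (Tendsto.add ha hb').congr fun N => ?_
            rw [← Finset.sum_add_distrib]
            exact Finset.sum_congr rfl fun n _ => (add_smul _ _ _).symm
          rw [hca m _ _ h1, hca m _ _ ha, hca m _ _ hb']
        map_smul' := by
          intro r f
          obtain ⟨a, ha, _⟩ := hb f
          have h1 : Tendsto (fun N => ∑ n ∈ Finset.range N, (r * a n) • h n) atTop (𝓝 (r • f)) := by
            refine (Tendsto.const_smul ha r).congr fun N => ?_
            rw [Finset.smul_sum]
            exact Finset.sum_congr rfl fun n _ => smul_smul _ _ _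
          rw [hca m _ _ h1, hca m _ _ ha]
          rfl
        cont := hcc m }
    obtain ⟨x, hx⟩ := LinearMap.dualEmbedding_surjective (topDualPairing 𝕜 E) C
    refine ⟨x, fun f => ?_⟩
    have := congrArg (fun L : StrongDual 𝕜 (WeakBilin (topDualPairing 𝕜 E)) => L f) hx
    exact this.symm
  choose x hx using hlin
  refine ⟨x, fun f a ha m => ?_⟩
  rw [← hx m f, hca m f a ha]

/-- If `E*` has a weak star Schauder basis then `E` is separable. -/
theorem separable_of_schauder (h : ℕ → WeakDual 𝕜 E) (hh : IsWeakStarSchauderBasis 𝕜 E h) :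
    TopologicalSpace.SeparableSpace E := by
  obtain ⟨x, hx⟩ := exists_points h hh
  set Y : Submodule 𝕜 E := (Submodule.span 𝕜 (Set.range x)).topologicalClosure with hY
  have hYc : IsClosed (Y : Set E) := Submodule.isClosed_topologicalClosure _
  have htop : ∀ y : E, y ∈ Y := by
    intro y
    by_contra hy
    have hne : (Submodule.Quotient.mk y : E ⧸ Y) ≠ 0 := by
      rw [Ne, Submodule.Quotient.mk_eq_zero]
      exact hy
    have hcl : IsClosed (Y : Set E) := hYc
    have hnorm : ‖(Submodule.Quotient.mk y : E ⧸ Y)‖ ≠ 0 := norm_ne_zero_iff.2 hne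
    obtain ⟨g, _, hg⟩ := exists_dual_vector 𝕜 (Submodule.Quotient.mk y : E ⧸ Y) hnorm
    let G : StrongDual 𝕜 E := g.comp Y.mkQL
    have hGx : ∀ m, G (x m) = 0 := by
      intro m
      have h1 : (Submodule.Quotient.mk (x m) : E ⧸ Y) = 0 := by
        rw [Submodule.Quotient.mk_eq_zero]
        exact Submodule.le_topologicalClosure _ (Submodule.subset_span ⟨m, rfl⟩)
      show g (Submodule.Quotient.mk (x m)) = 0
      rw [h1, map_zero]
    obtain ⟨a, ha, _⟩ := hh.1 (StrongDual.toWeakDual G)
    have ha0 : ∀ m, a m = 0 := fun m => by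
      rw [hx _ a ha m]
      exact hGx m
    have h2 := (tendsto_iff h a _).1 ha y
    simp only [ha0, zero_mul, Finset.sum_const_zero] at h2
    have h3 : G y = 0 := (tendsto_nhds_unique tendsto_const_nhds h2).symm
    have h4 : g (Submodule.Quotient.mk y : E ⧸ Y) = 0 := h3
    rw [hg] at h4
    apply hnorm
    exact_mod_cast h4
  rw [← TopologicalSpace.isSeparable_univ_iff]
  have h1 : TopologicalSpace.IsSeparable (Submodule.span 𝕜 (Set.range x) : Set E) :=
    ((Set.countable_range x).isSeparable).span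
  exact h1.closure.mono fun y _ => htop y

end

/-- Over the real and over the complex scalars there is a Banach space `E` such that `E*` has a
weak star basis but `E*` has no weak star Schauder basis. -/
theorem result (𝕜 : Type) [RCLike 𝕜] :
    ∃ (E : Type) (_ : NormedAddCommGroup E) (_ : NormedSpace 𝕜 E) (_ : CompleteSpace E),
      (∃ h : ℕ → WeakDual 𝕜 E, IsWeakStarBasis 𝕜 E h) ∧
      ¬ ∃ h : ℕ → WeakDual 𝕜 E, IsWeakStarSchauderBasis 𝕜 E h := by
  obtain ⟨E, i1, i2, i3, hsep, h, hh⟩ := Pool.Agent.Helper499.WB.main 𝕜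
  refine ⟨E, i1, i2, i3, ⟨fun n => StrongDual.toWeakDual (h n), fun f => ?_⟩, ?_⟩
  · obtain ⟨a, ha, huniq⟩ := hh (WeakDual.toStrongDual f)
    refine ⟨a, (tendsto_iff _ a f).2 ha, fun a' ha' => huniq a' ?_⟩
    exact (tendsto_iff _ a' f).1 ha'
  · rintro ⟨h', hh'⟩
    exact hsep (separable_of_schauder h' hh')

end Pool.Agent.Results.MP_605a0d_an.NoSchauder
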